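import Mathlib

/-!
# Odd covers of `[n]^d` by odd proper boxes: the lower bound
-/

set_option autoImplicit false

namespace Pool.Agent.H117.OddCov

open Finset

/-- the boxes `P j`, `j ∈ J`, are odd and proper and cover every point an odd number of times -/
def Cov (n d : ℕ) {ι : Type} (J : Finset ι) (P : ι → Fin d → Finset (Fin n)) : Prop :=
  (∀ j ∈ J, ∀ i, Odd (P j i).card ∧ P j i ≠ Finset.univ) ∧
  ∀ x : Fin d → Fin n, Odd (J.filter fun j => ∀ i, x i ∈ P j i).card

/-- the odd subsets -/
def OS (n : ℕ) : Finset (Finset (Fin n)) := univ.filter fun u => Odd u.card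

/-- half of the odd sets meet a proper odd set in an odd number of points -/
theorem half {n : ℕ} (A : Finset (Fin n)) (h1 : A.Nonempty) (h2 : A ≠ univ) :
    2 * ((OS n).filter fun u => Odd (A ∩ u).card).card = (OS n).card := by
  obtain ⟨a, ha⟩ := h1
  obtain ⟨b, hb⟩ : ∃ b, b ∉ A := by
    by_contra h
    push Not at h
    exact h2 (eq_univ_iff_forall.2 h)
  have hab : a ≠ b := fun h => hb (h ▸ ha)
  have key : ((OS n).filter fun u => Odd (A ∩ u).card).card =
      ((OS n).filter fun u => ¬ Odd (A ∩ u).card).card := by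
    have par : ∀ (S T : Finset (Fin n)), (symmDiff S T).card + 2 * (S ∩ T).card =
        S.card + T.card := by
      intro S T
      have e1 : (symmDiff S T).card = (S \ T).card + (T \ S).card := by
        rw [symmDiff_def]
        apply card_union_of_disjoint
        rw [disjoint_left]
        intro x hx hx2
        rw [mem_sdiff] at hx hx2
        exact hx.2 hx2.1
      have e2 := card_sdiff_add_card_inter S T
      have e3 := card_sdiff_add_card_inter T S
      rw [inter_comm T S] at e3
      omega
    have cab : ({a, b} : Finset (Fin n)).card = 2 := card_pair hab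
    have g1 : ∀ u : Finset (Fin n), Odd u.card → Odd (symmDiff u {a, b}).card := by
      intro u hu
      have := par u {a, b}
      rw [cab] at this
      rw [Nat.odd_iff] at hu ⊢
      omega
    have g2 : ∀ u : Finset (Fin n), (Odd (A ∩ symmDiff u {a, b}).card ↔ ¬ Odd (A ∩ u).card) := by
      intro u
      have e : A ∩ symmDiff u {a, b} = symmDiff (A ∩ u) {a} := by
        ext x
        simp only [mem_inter, mem_symmDiff, mem_insert, mem_singleton]
        by_cases hxa : x = a
        · subst hxa
          simp [ha]
        · by_cases hxb : x = b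
          · subst hxb
            simp [hb, hxa]
          · simp [hxa, hxb]
      rw [e]
      have := par (A ∩ u) {a}
      rw [card_singleton] at this
      rw [Nat.odd_iff, Nat.odd_iff]
      omega
    apply card_bij (fun u _ => symmDiff u {a, b})
    · intro u hu
      simp only [OS, mem_filter, mem_univ, true_and] at hu ⊢
      exact ⟨g1 u hu.1, by rw [g2]; exact not_not.2 hu.2⟩
    · intro u _ v _ h
      exact symmDiff_left_injective _ h
    · intro u hu
      simp only [OS, mem_filter, mem_univ, true_and] at hu
      refine ⟨symmDiff u {a, b}, ?_, ?_⟩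
      · simp only [OS, mem_filter, mem_univ, true_and]
        exact ⟨g1 u hu.1, (g2 u).2 hu.2⟩
      · rw [symmDiff_symmDiff_cancel_right]
  have := card_filter_add_card_filter_not (s := OS n) (fun u => Odd (A ∩ u).card)
  omega

/-- slicing by an odd set -/
theorem slice {n d : ℕ} {ι : Type} (J : Finset ι) (P : ι → Fin (d + 1) → Finset (Fin n))
    (h : Cov n (d + 1) J P) (u : Finset (Fin n)) (hu : Odd u.card) :
    Cov n d (J.filter fun j => Odd (P j 0 ∩ u).card) (fun j i => P j i.succ) := by
  obtain ⟨h1, h2⟩ := h
  refine ⟨fun j hj i => h1 j (mem_filter.1 hj).1 i.succ, fun x => ?_⟩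
  rw [filter_filter]
  have e1 : (J.filter fun j => Odd (P j 0 ∩ u).card ∧ ∀ i, x i ∈ P j i.succ) =
      (J.filter fun j => ∀ i, x i ∈ P j i.succ).filter fun j => Odd (P j 0 ∩ u).card := by
    rw [filter_filter]
    exact filter_congr fun j _ => and_comm
  rw [e1, ← Finset.odd_sum_iff_odd_card_odd]
  have e2 : ∑ j ∈ J.filter (fun j => ∀ i, x i ∈ P j i.succ), (P j 0 ∩ u).card =
      ∑ a ∈ u, ((J.filter fun j => ∀ i, x i ∈ P j i.succ).filter fun j => a ∈ P j 0).card := by
    simp only [card_filter]
    rw [sum_comm]
    refine sum_congr rfl fun j _ => ?_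
    rw [← card_filter]
    congr 1
    ext a
    simp only [mem_inter, mem_filter]
    exact and_comm
  rw [e2, Finset.odd_sum_iff_odd_card_odd]
  rw [filter_true_of_mem]
  · exact hu
  · intro a _
    have h3 := h2 (Fin.cons a x)
    rw [filter_filter]
    have e3 : (J.filter fun j => ∀ i, (Fin.cons a x : Fin (d + 1) → Fin n) i ∈ P j i) =
        J.filter fun j => (∀ i, x i ∈ P j i.succ) ∧ a ∈ P j 0 := by
      refine filter_congr fun j _ => ?_
      rw [Fin.forall_fin_succ]
      simp only [Fin.cons_zero, Fin.cons_succ]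
      exact and_comm
    rw [e3] at h3
    exact h3

theorem OS_card {n : ℕ} (h3 : 3 ≤ n) : 3 ≤ (OS n).card := by
  have h : ({{⟨0, by omega⟩}, {⟨1, by omega⟩}, {⟨2, by omega⟩}} : Finset (Finset (Fin n))) ⊆
      OS n := by
    intro u hu
    simp only [mem_insert, mem_singleton] at hu
    simp only [OS, mem_filter, mem_univ, true_and]
    rcases hu with rfl | rfl | rfl <;> simp
  have h2 := card_le_card h
  have h4 : ({{⟨0, by omega⟩}, {⟨1, by omega⟩}, {⟨2, by omega⟩}} :
      Finset (Finset (Fin n))).card = 3 := by
    rw [card_insert_of_notMem, card_insert_of_notMem, card_singleton]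
    · simp
    · simp
  omega

/-- **the lower bound** -/
theorem lower {n : ℕ} (hn : Odd n) (h3 : 3 ≤ n) {ι : Type} : ∀ (d : ℕ) (J : Finset ι)
    (P : ι → Fin d → Finset (Fin n)), Cov n d J P → 2 ^ (d + 1) ≤ J.card + 1 := by
  intro d
  induction d with
  | zero =>
    intro J P h
    have h1 := h.2 (fun i => i.elim0)
    rw [filter_true_of_mem (fun j _ i => i.elim0)] at h1
    have := h1.pos
    omega
  | succ d ih =>
    intro J P h
    obtain ⟨m, hm⟩ : ∃ m, m = 2 ^ (d + 1) - 1 := ⟨_, rfl⟩
    have hpos : 2 ≤ 2 ^ (d + 1) := by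
      have := Nat.one_le_two_pow (n := d)
      rw [pow_succ]
      omega
    have hlow : ∀ u ∈ OS n, m ≤ (J.filter fun j => Odd (P j 0 ∩ u).card).card := by
      intro u hu
      simp only [OS, mem_filter, mem_univ, true_and] at hu
      have := ih _ _ (slice J P h u hu)
      omega
    have hU : (univ : Finset (Fin n)) ∈ OS n := by
      simp only [OS, mem_filter, mem_univ, true_and, card_univ, Fintype.card_fin]
      exact hn
    have hUc : (J.filter fun j => Odd (P j 0 ∩ univ).card) = J := by
      apply filter_true_of_mem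
      intro j hj
      rw [inter_univ]
      exact (h.1 j hj 0).1
    -- double counting
    have hdc : ∑ u ∈ OS n, (J.filter fun j => Odd (P j 0 ∩ u).card).card =
        ∑ j ∈ J, ((OS n).filter fun u => Odd (P j 0 ∩ u).card).card := by
      simp only [card_filter]
      rw [sum_comm]
    have hhalf : 2 * ∑ j ∈ J, ((OS n).filter fun u => Odd (P j 0 ∩ u).card).card =
        J.card * (OS n).card := by
      rw [mul_sum, sum_congr rfl fun j hj => half (P j 0) (card_pos.1 (h.1 j hj 0).1.pos)
        (h.1 j hj 0).2, sum_const, smul_eq_mul]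
    have hsplit : ∑ u ∈ OS n, (J.filter fun j => Odd (P j 0 ∩ u).card).card =
        J.card + ∑ u ∈ (OS n).erase univ, (J.filter fun j => Odd (P j 0 ∩ u).card).card := by
      rw [← add_sum_erase _ _ hU, hUc]
    have hge : ((OS n).card - 1) * m ≤
        ∑ u ∈ (OS n).erase univ, (J.filter fun j => Odd (P j 0 ∩ u).card).card := by
      rw [← card_erase_of_mem hU, ← smul_eq_mul]
      exact card_nsmul_le_sum _ _ _ fun u hu => hlow u (mem_of_mem_erase hu)
    have hT := OS_card h3
    obtain ⟨T, hTd⟩ : ∃ T, (OS n).card = T + 3 := ⟨(OS n).card - 3, by omega⟩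
    rw [hTd] at hhalf hge
    have e1 : T + 3 - 1 = T + 2 := by omega
    rw [e1] at hge
    have hfin : 2 * m + 1 ≤ J.card := by
      by_contra hc
      push Not at hc
      have hc' : J.card ≤ 2 * m := by omega
      have h5 : J.card * (T + 3) = 2 * (J.card +
          ∑ u ∈ (OS n).erase univ, (J.filter fun j => Odd (P j 0 ∩ u).card).card) := by
        rw [← hhalf, ← hdc, hsplit]
      have h6 : 2 * J.card + 2 * ((T + 2) * m) ≤ J.card * (T + 3) := by
        rw [h5]; omega
      have h7 : J.card * (T + 1) ≤ 2 * m * (T + 1) := Nat.mul_le_mul_right _ hc'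
      have hm1 : 1 ≤ m := by omega
      nlinarith
    have e2 : 2 ^ (d + 1 + 1) = 2 * 2 ^ (d + 1) := by rw [pow_succ]; ring
    rw [e2]
    omega

end Pool.Agent.H117.OddCov
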