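import Pool.Agent.H117.OddCov.Low

/-!
# Odd covers of `[n]^d` by odd proper boxes: the construction and the products
-/

set_option autoImplicit false

namespace Pool.Agent.H117.OddCov

open Finset

/-- the functionals: the coordinates, their sum, and zero -/
def ell {n d : ℕ} (a : Fin n) : (Fin (d + 1) → ZMod 2) →ₗ[ZMod 2] ZMod 2 :=
  if h : a.val < d + 1 then LinearMap.proj ⟨a.val, h⟩
  else if a.val = d + 1 then ∑ i, LinearMap.proj i else 0

theorem ell_sum {n d : ℕ} (hn : d + 2 ≤ n) (v : Fin (d + 1) → ZMod 2) :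
    ∑ a : Fin n, ell a v = 0 := by
  obtain ⟨e, rfl⟩ : ∃ e, n = (d + 1) + (1 + e) := ⟨n - (d + 2), by omega⟩
  have h1 : ∑ i : Fin (d + 1), ell (Fin.castAdd (1 + e) i) v = ∑ i, v i := by
    refine sum_congr rfl fun i _ => ?_
    unfold ell
    rw [dif_pos (by rw [Fin.val_castAdd]; exact i.2)]
    rfl
  have h2 : ∑ i : Fin 1, ell (Fin.natAdd (d + 1) (Fin.castAdd e i)) v = ∑ i, v i := by
    rw [Fin.sum_univ_one]
    unfold ell
    rw [dif_neg (by simp), if_pos (by simp)]
    simp
  have h3 : ∑ i : Fin e, ell (Fin.natAdd (d + 1) (Fin.natAdd 1 i)) v = 0 := by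
    apply sum_eq_zero
    intro i _
    unfold ell
    rw [dif_neg (by simp only [Fin.val_natAdd]; omega), if_neg (by simp only [Fin.val_natAdd]; omega)]
    rfl
  have h4 := Fin.sum_univ_add (fun a : Fin (d + 1 + (1 + e)) => ell (d := d) a v)
  have h5 := Fin.sum_univ_add (fun a : Fin (1 + e) => ell (d := d) (Fin.natAdd (d + 1) a) v)
  rw [h4, h1, h5, h2, h3, add_zero]
  exact CharTwo.add_self_eq_zero _

/-- the sides of the boxes -/
def Bx (n d : ℕ) (v : Fin (d + 1) → ZMod 2) : Finset (Fin n) := univ.filter fun a => ell a v = 0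

theorem Bx_odd {n d : ℕ} (hodd : Odd n) (hn : d + 2 ≤ n) (v : Fin (d + 1) → ZMod 2) :
    Odd (Bx n d v).card := by
  have h1 := card_filter_add_card_filter_not (s := (univ : Finset (Fin n)))
    (fun a => ell a v = 0)
  rw [card_univ, Fintype.card_fin] at h1
  have h2 : Even ((univ : Finset (Fin n)).filter fun a => ¬ ell a v = 0).card := by
    have h3 : (((univ : Finset (Fin n)).filter fun a => ¬ ell a v = 0).card : ZMod 2) = 0 := by
      rw [card_filter]
      push_cast
      refine Eq.trans (sum_congr rfl fun a _ => ?_) (ell_sum hn v)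
      generalize ell a v = z
      revert z
      decide
    exact (ZMod.natCast_eq_zero_iff_even).1 h3
  unfold Bx
  rw [Nat.odd_iff] at hodd ⊢
  rw [Nat.even_iff] at h2
  omega

theorem Bx_proper {n d : ℕ} (hn : d + 2 ≤ n) (v : Fin (d + 1) → ZMod 2) (hv : v ≠ 0) :
    Bx n d v ≠ univ := by
  intro h
  apply hv
  funext i
  have h1 : (⟨i.val, by omega⟩ : Fin n) ∈ Bx n d v := by rw [h]; exact mem_univ _
  unfold Bx at h1
  rw [mem_filter] at h1
  have h2 := h1.2
  unfold ell at h2
  rw [dif_pos (by simpa using i.2)] at h2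
  exact h2

theorem ker_even {d : ℕ} (L : (Fin (d + 1) → ZMod 2) →ₗ[ZMod 2] (Fin d → ZMod 2)) :
    Even (univ.filter fun v => L v = 0).card := by
  have h1 : LinearMap.ker L ≠ ⊥ := by
    apply LinearMap.ker_ne_bot_of_finrank_lt
    simp
  obtain ⟨w, hw, hw0⟩ := Submodule.exists_mem_ne_zero_of_ne_bot h1
  rw [LinearMap.mem_ker] at hw
  have h3 : ((univ.filter fun v => L v = 0).card : ZMod 2) = 0 := by
    rw [card_eq_sum_ones]
    push_cast
    refine sum_involution (fun v _ => v + w) ?_ ?_ ?_ ?_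
    · intro v _
      decide
    · intro v _ _ h
      exact hw0 (by simpa using h)
    · intro v hv
      simp only [mem_filter, mem_univ, true_and] at hv ⊢
      rw [map_add, hv, hw, add_zero]
    · intro v _
      rw [add_assoc]
      have : w + w = 0 := by
        funext i
        exact CharTwo.add_self_eq_zero _
      rw [this, add_zero]
  exact (ZMod.natCast_eq_zero_iff_even).1 h3

/-- **the construction**: `2^(d+1) - 1` boxes if `d + 2 ≤ n` -/
theorem upper {n d : ℕ} (hodd : Odd n) (hn : d + 2 ≤ n) :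
    Cov n d ((univ : Finset (Fin (d + 1) → ZMod 2)).erase 0) (fun v _ => Bx n d v) := by
  refine ⟨fun v hv _ => ⟨Bx_odd hodd hn v, Bx_proper hn v (ne_of_mem_erase hv)⟩, fun x => ?_⟩
  have h := ker_even (LinearMap.pi fun i : Fin d => ell (n := n) (d := d) (x i))
  have e : (((univ : Finset (Fin (d + 1) → ZMod 2)).erase 0).filter
      fun v => ∀ i : Fin d, x i ∈ Bx n d v) =
      (univ.filter fun v => (LinearMap.pi fun i : Fin d => ell (n := n) (d := d) (x i)) v =
        0).erase 0 := by
    ext v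
    simp only [mem_filter, mem_erase, mem_univ, and_true, true_and, Bx]
    refine and_congr_right fun _ => ?_
    rw [funext_iff]
    rfl
  rw [e, card_erase_of_mem (by simp)]
  have hpos : 0 < (univ.filter fun v => (LinearMap.pi fun i : Fin d =>
      ell (n := n) (d := d) (x i)) v = 0).card := card_pos.2 ⟨0, by simp⟩
  rw [Nat.even_iff] at h
  rw [Nat.odd_iff]
  omega

theorem upper_card (d : ℕ) : ((univ : Finset (Fin (d + 1) → ZMod 2)).erase 0).card =
    2 ^ (d + 1) - 1 := by
  rw [card_erase_of_mem (mem_univ _), card_univ, Fintype.card_fun, ZMod.card, Fintype.card_fin]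

/-- products -/
theorem prod_cov {n d e : ℕ} {ι κ : Type} {J : Finset ι} {K : Finset κ}
    {P : ι → Fin d → Finset (Fin n)} {Q : κ → Fin e → Finset (Fin n)}
    (hP : Cov n d J P) (hQ : Cov n e K Q) :
    Cov n (d + e) (J ×ˢ K) (fun j => Fin.append (P j.1) (Q j.2)) := by
  constructor
  · rintro ⟨a, b⟩ hab i
    rw [mem_product] at hab
    refine Fin.addCases (fun i => ?_) (fun i => ?_) i
    · simp only [Fin.append_left]
      exact hP.1 a hab.1 i
    · simp only [Fin.append_right]
      exact hQ.1 b hab.2 i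
  · intro x
    have e1 : ((J ×ˢ K).filter fun j => ∀ i, x i ∈ Fin.append (P j.1) (Q j.2) i) =
        (J.filter fun j => ∀ i, x (Fin.castAdd e i) ∈ P j i) ×ˢ
          (K.filter fun j => ∀ i, x (Fin.natAdd d i) ∈ Q j i) := by
      ext ⟨a, b⟩
      simp only [mem_filter, mem_product]
      constructor
      · rintro ⟨⟨ha, hb⟩, h⟩
        refine ⟨⟨ha, fun i => ?_⟩, ⟨hb, fun i => ?_⟩⟩
        · have := h (Fin.castAdd e i)
          rwa [Fin.append_left] at this
        · have := h (Fin.natAdd d i)
          rwa [Fin.append_right] at this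
      · rintro ⟨⟨ha, h1⟩, ⟨hb, h2⟩⟩
        refine ⟨⟨ha, hb⟩, fun i => ?_⟩
        refine Fin.addCases (fun i => ?_) (fun i => ?_) i
        · rw [Fin.append_left]
          exact h1 i
        · rw [Fin.append_right]
          exact h2 i
    rw [e1, card_product]
    exact (hP.2 _).mul (hQ.2 _)

/-- powers -/
theorem pow_cov {n D N : ℕ} {ι : Type} {J : Finset ι} {P : ι → Fin D → Finset (Fin n)}
    (hP : Cov n D J P) (hN : J.card = N) : ∀ m : ℕ, ∃ (κ : Type) (K : Finset κ)
      (Q : κ → Fin (m * D) → Finset (Fin n)), K.card = N ^ m ∧ Cov n (m * D) K Q := by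
  intro m
  induction m with
  | zero =>
    rw [zero_mul]
    refine ⟨Unit, univ, fun _ i => i.elim0, by simp, fun _ _ i => i.elim0, fun x => ?_⟩
    rw [filter_true_of_mem (fun _ _ i => i.elim0)]
    simp
  | succ m ih =>
    obtain ⟨κ, K, Q, hK, hQ⟩ := ih
    rw [Nat.succ_mul]
    refine ⟨κ × ι, K ×ˢ J, _, ?_, prod_cov hQ hP⟩
    rw [card_product, hK, hN, pow_succ]

/-- transport to the index set `Fin k` -/
theorem toFin {n d : ℕ} {ι : Type} {J : Finset ι} {P : ι → Fin d → Finset (Fin n)}
    (hP : Cov n d J P) : ∃ Q : Fin J.card → Fin d → Finset (Fin n), Cov n d univ Q := by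
  refine ⟨fun k => P (J.equivFin.symm k), fun k _ i => hP.1 _ (J.equivFin.symm k).2 i,
    fun x => ?_⟩
  have e : (univ.filter fun k : Fin J.card => ∀ i, x i ∈ P (J.equivFin.symm k) i).card =
      (J.filter fun j => ∀ i, x i ∈ P j i).card := by
    apply card_bij (fun k _ => ((J.equivFin.symm k : J) : ι))
    · intro k hk
      rw [mem_filter] at hk ⊢
      exact ⟨(J.equivFin.symm k).2, hk.2⟩
    · intro k _ l _ h
      exact J.equivFin.symm.injective (Subtype.ext h)
    · intro j hj
      rw [mem_filter] at hj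
      refine ⟨J.equivFin ⟨j, hj.1⟩, ?_, ?_⟩
      · rw [mem_filter]
        refine ⟨mem_univ _, ?_⟩
        rw [Equiv.symm_apply_apply]
        exact hj.2
      · rw [Equiv.symm_apply_apply]
  rw [e]
  exact hP.2 x

end Pool.Agent.H117.OddCov
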